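import Mathlib
import Pool.Agent.Run7.h480.BF.Iface

/-! Project BF, piece FAC: faces of a polyhedral cone. -/

set_option autoImplicit false

open Set Module

namespace Run7.h480.BF

namespace H215

variable {E : Type} [Fintype E]

lemma mem_Kf {n : ℕ} {f : Fin n → ((E → ℝ) →ₗ[ℝ] ℝ)} {Z : Set (Fin n)} {v : E → ℝ} :
    v ∈ Kf f Z ↔ ∀ i ∈ Z, f i v = 0 := by
  simp [Kf, Submodule.mem_iInf]

/-- small steps -/
lemma small {ι : Type} [Finite ι] (a b : ι → ℝ) : ∃ ε : ℝ, 0 < ε ∧ ∀ i, 0 < a i → ∀ t : ℝ, 0 ≤ t →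
    t ≤ ε → 0 < a i + t * b i := by
  classical
  cases nonempty_fintype ι
  have h : ∀ s : Finset ι, ∃ ε : ℝ, 0 < ε ∧ ∀ i ∈ s, 0 < a i → ε * (|b i| + 1) < a i := by
    intro s
    induction s using Finset.induction_on with
    | empty => exact ⟨1, one_pos, fun i hi => absurd hi (Finset.notMem_empty i)⟩
    | insert j s hj ih =>
      obtain ⟨ε, he, h⟩ := ih
      by_cases hpos : 0 < a j
      · refine ⟨min ε (a j / (2 * (|b j| + 1))), lt_min he (by positivity), ?_⟩
        intro i hi hai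
        rcases Finset.mem_insert.mp hi with rfl | hi
        · have h1 : 0 < |b i| + 1 := by positivity
          calc min ε (a i / (2 * (|b i| + 1))) * (|b i| + 1)
              ≤ a i / (2 * (|b i| + 1)) * (|b i| + 1) :=
                mul_le_mul_of_nonneg_right (min_le_right _ _) h1.le
            _ = a i / 2 := by field_simp
            _ < a i := by linarith
        · have h1 : 0 < |b i| + 1 := by positivity
          exact lt_of_le_of_lt (mul_le_mul_of_nonneg_right (min_le_left _ _) h1.le) (h i hi hai)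
      · refine ⟨ε, he, ?_⟩
        intro i hi hai
        rcases Finset.mem_insert.mp hi with rfl | hi
        · exact absurd hai hpos
        · exact h i hi hai
  obtain ⟨ε, he, h⟩ := h Finset.univ
  refine ⟨ε, he, ?_⟩
  intro i hi t ht hte
  have h1 := h i (Finset.mem_univ i) hi
  have h2 : -|b i| ≤ b i := neg_abs_le (b i)
  have h3 : 0 ≤ |b i| := abs_nonneg _
  nlinarith [mul_nonneg ht h3, mul_nonneg (sub_nonneg.mpr hte) h3]

lemma zero_mem_Cf {n : ℕ} (f : Fin n → ((E → ℝ) →ₗ[ℝ] ℝ)) : (0 : E → ℝ) ∈ Cf f := by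
  intro i
  simp

lemma self_mem_Ff {n : ℕ} {f : Fin n → ((E → ℝ) →ₗ[ℝ] ℝ)} {y : E → ℝ} (hy : y ∈ Cf f) :
    y ∈ Ff f y := ⟨hy, subset_rfl⟩

/-- the functional which cuts out the face of `y` -/
lemma face_Ff {n : ℕ} (f : Fin n → ((E → ℝ) →ₗ[ℝ] ℝ)) (y : E → ℝ) : IsFace (Ff f y) (Cf f) := by
  classical
  refine ⟨∑ i ∈ Finset.univ.filter (fun i => i ∈ Zf f y), f i, ?_, ?_⟩
  · intro x hx
    rw [LinearMap.sum_apply]
    exact Finset.sum_nonneg fun i _ => hx i
  · ext x
    constructor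
    · rintro ⟨hx, hZ⟩
      refine ⟨hx, ?_⟩
      rw [LinearMap.sum_apply]
      refine Finset.sum_eq_zero fun i hi => ?_
      exact hZ (Finset.mem_filter.mp hi).2
    · rintro ⟨hx, h0⟩
      refine ⟨hx, fun i hi => ?_⟩
      rw [LinearMap.sum_apply, Finset.sum_eq_zero_iff_of_nonneg (fun i _ => hx i)] at h0
      exact h0 i (Finset.mem_filter.mpr ⟨Finset.mem_univ i, hi⟩)

/-- moving a little inside the face -/
lemma move {n : ℕ} {f : Fin n → ((E → ℝ) →ₗ[ℝ] ℝ)} {y : E → ℝ} (hy : y ∈ Cf f) {v : E → ℝ}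
    (hv : v ∈ Kf f (Zf f y)) : ∃ ε : ℝ, 0 < ε ∧ ∀ t : ℝ, |t| ≤ ε →
      y + t • v ∈ Ff f y ∧ Zf f (y + t • v) = Zf f y := by
  obtain ⟨ε₁, h1, h1'⟩ := small (fun i => f i y) (fun i => f i v)
  obtain ⟨ε₂, h2, h2'⟩ := small (fun i => f i y) (fun i => -f i v)
  have key : ∀ t : ℝ, |t| ≤ min ε₁ ε₂ → ∀ i, (f i y = 0 → f i (y + t • v) = 0) ∧
      (0 < f i y → 0 < f i (y + t • v)) := by
    intro t ht i
    constructor
    · intro hi
      have := mem_Kf.mp hv i hi
      simp [hi, this]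
    · intro hi
      rw [map_add, map_smul, smul_eq_mul]
      rcases le_total 0 t with h | h
      · rw [abs_of_nonneg h] at ht
        exact h1' i hi t h (ht.trans (min_le_left _ _))
      · rw [abs_of_nonpos h] at ht
        have := h2' i hi (-t) (by linarith) (ht.trans (min_le_right _ _))
        simpa using this
  have hZ : ∀ t : ℝ, |t| ≤ min ε₁ ε₂ → Zf f (y + t • v) = Zf f y := by
    intro t ht
    ext i
    constructor
    · intro hi
      by_contra hcon
      have hpos : 0 < f i y := lt_of_le_of_ne (hy i) (fun h => hcon h.symm)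
      have := (key t ht i).2 hpos
      exact absurd hi this.ne'
    · intro hi
      exact (key t ht i).1 hi
  refine ⟨min ε₁ ε₂, lt_min h1 h2, fun t ht => ⟨⟨fun i => ?_, (hZ t ht).ge⟩, hZ t ht⟩⟩
  rcases (hy i).eq_or_lt with h | h
  · exact ((key t ht i).1 h.symm).ge
  · exact ((key t ht i).2 h).le

lemma span_Ff {n : ℕ} {f : Fin n → ((E → ℝ) →ₗ[ℝ] ℝ)} {y : E → ℝ} (hy : y ∈ Cf f) :
    Submodule.span ℝ (Ff f y) = Kf f (Zf f y) := by
  apply le_antisymm
  · rw [Submodule.span_le]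
    rintro x ⟨_, hx⟩
    exact mem_Kf.mpr fun i hi => hx hi
  · intro v hv
    obtain ⟨ε, he, h⟩ := move hy hv
    have h1 := (h ε (by rw [abs_of_pos he])).1
    have h2 : v = ε⁻¹ • ((y + ε • v) - y) := by
      rw [add_sub_cancel_left, smul_smul, inv_mul_cancel₀ he.ne', one_smul]
    rw [h2]
    exact Submodule.smul_mem _ _ (Submodule.sub_mem _ (Submodule.subset_span h1)
      (Submodule.subset_span (self_mem_Ff hy)))

lemma exists_Ff {n : ℕ} {f : Fin n → ((E → ℝ) →ₗ[ℝ] ℝ)} {τ : Set (E → ℝ)}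
    (h : IsFace τ (Cf f)) : ∃ z ∈ τ, τ = Ff f z := by
  obtain ⟨g, hg, rfl⟩ := h
  have h0 : (0 : E → ℝ) ∈ {x | x ∈ Cf f ∧ g x = 0} := ⟨zero_mem_Cf f, map_zero g⟩
  obtain ⟨m, ⟨z, hz, rfl⟩, hmin⟩ := (wellFounded_lt (α := ℕ)).has_min
    ((fun z => (Zf f z).ncard) '' {x | x ∈ Cf f ∧ g x = 0}) ⟨_, mem_image_of_mem _ h0⟩
  refine ⟨z, hz, ?_⟩
  ext x
  constructor
  · rintro ⟨hx, hgx⟩
    refine ⟨hx, ?_⟩
    have hzx : z + x ∈ {x | x ∈ Cf f ∧ g x = 0} :=
      ⟨fun i => by rw [map_add]; exact add_nonneg (hz.1 i) (hx i), by rw [map_add, hz.2, hgx, add_zero]⟩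
    have hZ : Zf f (z + x) = Zf f z ∩ Zf f x := by
      ext i
      simp only [Zf, mem_setOf_eq, mem_inter_iff, map_add]
      constructor
      · intro h
        have h1 := hz.1 i
        have h2 := hx i
        exact ⟨by linarith, by linarith⟩
      · rintro ⟨h1, h2⟩
        rw [h1, h2, add_zero]
    have hle : (Zf f z).ncard ≤ (Zf f (z + x)).ncard :=
      not_lt.mp (hmin _ (mem_image_of_mem _ hzx))
    have hsub : Zf f (z + x) ⊆ Zf f z := by rw [hZ]; exact inter_subset_left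
    have heq := Set.eq_of_subset_of_ncard_le hsub hle (Set.toFinite _)
    rw [← heq, hZ]
    exact inter_subset_right
  · rintro ⟨hx, hZ⟩
    refine ⟨hx, ?_⟩
    have hv : x ∈ Kf f (Zf f z) := mem_Kf.mpr fun i hi => hZ hi
    obtain ⟨ε, he, h⟩ := move hz.1 hv
    have h1 := (h (-ε) (by rw [abs_neg, abs_of_pos he])).1.1
    have h2 := hg _ h1
    rw [map_add, hz.2, zero_add, map_smul, smul_eq_mul] at h2
    have h3 := hg _ hx
    nlinarith

end H215

theorem t_FAC : S_FAC := by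
  intro E _ n f
  exact ⟨fun y hy => ⟨H215.face_Ff f y, H215.span_Ff hy⟩, fun τ h => H215.exists_Ff h⟩

end Run7.h480.BF
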