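import Mathlib
import Pool.Agent.Run7.h215.BF.FAC

/-! Project BF, piece FAN: generalities on fans. -/

set_option autoImplicit false

open Set Module

namespace Run7.h480.BF

namespace H215

variable {E : Type} [Fintype E]

lemma zf_add {n : ℕ} {f : Fin n → ((E → ℝ) →ₗ[ℝ] ℝ)} {x y : E → ℝ} (hx : x ∈ Cf f)
    (hy : y ∈ Cf f) : Zf f (x + y) = Zf f x ∩ Zf f y := by
  ext i
  change f i (x + y) = 0 ↔ f i x = 0 ∧ f i y = 0
  rw [map_add]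
  constructor
  · intro h
    have h1 := hx i
    have h2 := hy i
    exact ⟨by linarith, by linarith⟩
  · rintro ⟨h1, h2⟩
    rw [h1, h2, add_zero]

lemma Ff_mono {n : ℕ} {f : Fin n → ((E → ℝ) →ₗ[ℝ] ℝ)} {x z : E → ℝ} (h : x ∈ Ff f z) :
    Ff f x ⊆ Ff f z := fun _ hw => ⟨hw.1, h.2.trans hw.2⟩

lemma car_Ff {S : Set (Set (E → ℝ))} (hS : IsFan S) {n : ℕ} {f : Fin n → ((E → ℝ) →ₗ[ℝ] ℝ)}
    (hf : Cf f ∈ S) {y : E → ℝ} (hy : y ∈ Cf f) : Car S y (Ff f y) := by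
  refine ⟨hS.face _ hf _ (face_Ff f y), self_mem_Ff hy, ?_⟩
  intro σ hσ hyσ
  obtain ⟨z, _, hz⟩ := exists_Ff (hS.inter _ hf _ hσ)
  have hyz : y ∈ Ff f z := by rw [← hz]; exact ⟨hy, hyσ⟩
  have h1 := Ff_mono hyz
  rw [← hz] at h1
  exact fun w hw => (h1 hw).2

lemma self_face {n : ℕ} (f : Fin n → ((E → ℝ) →ₗ[ℝ] ℝ)) : IsFace (Cf f) (Cf f) :=
  ⟨0, fun x _ => by simp, by ext x; simp⟩

lemma exists_car_of_mem {S : Set (Set (E → ℝ))} (hS : IsFan S) {κ : Set (E → ℝ)} (hκ : κ ∈ S) :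
    ∃ x, Car S x κ := by
  obtain ⟨n, f, hf⟩ := hS.poly κ hκ
  have hf' : κ = Cf f := hf
  subst hf'
  obtain ⟨z, hz, he⟩ := exists_Ff (self_face f)
  refine ⟨z, ?_⟩
  have h := car_Ff hS hκ hz
  rw [← he] at h
  exact h

lemma exists_car {S : Set (Set (E → ℝ))} (hS : IsFan S) {x : E → ℝ} (hx : x ∈ ⋃₀ S) :
    ∃ κ, Car S x κ := by
  obtain ⟨σ, hσ, hxσ⟩ := hx
  obtain ⟨n, f, hf⟩ := hS.poly σ hσ
  have hf' : σ = Cf f := hf
  subst hf'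
  exact ⟨_, car_Ff hS hσ hxσ⟩

lemma car_unique {S : Set (Set (E → ℝ))} {x : E → ℝ} {κ κ' : Set (E → ℝ)} (h : Car S x κ)
    (h' : Car S x κ') : κ = κ' :=
  subset_antisymm (h.min _ h'.mem h'.x_mem) (h'.min _ h.mem h.x_mem)

lemma zf_zero {n : ℕ} (f : Fin n → ((E → ℝ) →ₗ[ℝ] ℝ)) : Zf f (0 : E → ℝ) = univ := by
  ext i
  simp [Zf]

lemma lineal {n : ℕ} (f : Fin n → ((E → ℝ) →ₗ[ℝ] ℝ)) :
    {v | v ∈ Cf f ∧ -v ∈ Cf f} = (Kf f univ : Set (E → ℝ)) := by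
  ext v
  constructor
  · rintro ⟨h1, h2⟩
    refine mem_Kf.mpr fun i _ => ?_
    have h3 := h1 i
    have h4 := h2 i
    rw [map_neg] at h4
    linarith
  · intro h
    have h' := mem_Kf.mp h
    refine ⟨fun i => ?_, fun i => ?_⟩
    · rw [h' i (mem_univ i)]
    · rw [map_neg, h' i (mem_univ i), neg_zero]

lemma lineal' {n : ℕ} (f : Fin n → ((E → ℝ) →ₗ[ℝ] ℝ)) :
    (Kf f univ : Set (E → ℝ)) = Ff f 0 := by
  ext v
  constructor
  · intro h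
    have h' := mem_Kf.mp h
    refine ⟨fun i => by rw [h' i (mem_univ i)], fun i _ => h' i (mem_univ i)⟩
  · rintro ⟨_, h⟩
    exact mem_Kf.mpr fun i _ => h (by rw [zf_zero]; trivial)

lemma lineal_sub {S : Set (Set (E → ℝ))} (hS : IsFan S) {σ τ : Set (E → ℝ)} (hσ : σ ∈ S)
    (hτ : τ ∈ S) : {v | v ∈ σ ∧ -v ∈ σ} ⊆ τ := by
  obtain ⟨g, hg, h⟩ := hS.inter σ hσ τ hτ
  rintro v ⟨h1, h2⟩
  have h3 := hg v h1
  have h4 := hg _ h2
  rw [map_neg] at h4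
  have h5 : v ∈ σ ∩ τ := by
    rw [h]
    exact ⟨h1, by linarith⟩
  exact h5.2

lemma lin_eq {S : Set (Set (E → ℝ))} (hS : IsFan S) {σ : Set (E → ℝ)} (hσ : σ ∈ S) :
    {v | v ∈ σ ∧ -v ∈ σ} = lin S := by
  ext v
  constructor
  · intro hv τ hτ x hx t
    obtain ⟨n, f, hf⟩ := hS.poly τ hτ
    have h1 := lineal_sub hS hσ hτ hv
    have h2 : -v ∈ τ := lineal_sub hS hσ hτ ⟨hv.2, by rw [neg_neg]; exact hv.1⟩
    rw [hf] at hx h1 h2 ⊢
    intro i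
    have h3 := hx i
    have h4 := h1 i
    have h5 := h2 i
    rw [map_neg] at h5
    have h6 : f i v = 0 := by linarith
    rw [map_add, map_smul, h6, smul_zero, add_zero]
    exact h3
  · intro hv
    obtain ⟨n, f, hf⟩ := hS.poly σ hσ
    have h0 : (0 : E → ℝ) ∈ σ := by rw [hf]; exact zero_mem_Cf f
    have h1 := hv σ hσ 0 h0 1
    have h2 := hv σ hσ 0 h0 (-1)
    rw [one_smul, zero_add] at h1
    rw [neg_smul, one_smul, zero_add] at h2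
    exact ⟨h1, h2⟩

lemma lin_Cf {S : Set (Set (E → ℝ))} (hS : IsFan S) {n : ℕ} {f : Fin n → ((E → ℝ) →ₗ[ℝ] ℝ)}
    (hf : Cf f ∈ S) : lin S = (Kf f univ : Set (E → ℝ)) := by
  rw [← lin_eq hS hf, lineal]

lemma dim_le_of_subset {σ τ : Set (E → ℝ)} (h : σ ⊆ τ) : dim σ ≤ dim τ :=
  Submodule.finrank_mono (Submodule.span_mono h)

lemma eq_of_dim {S : Set (Set (E → ℝ))} (hS : IsFan S) {σ τ : Set (E → ℝ)} (hσ : σ ∈ S)
    (hτ : τ ∈ S) (h : σ ⊆ τ) (hd : dim σ = dim τ) : σ = τ := by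
  obtain ⟨g, hg, hgσ⟩ := hS.inter τ hτ σ hσ
  rw [inter_eq_self_of_subset_right h] at hgσ
  by_contra hne
  obtain ⟨x, hx, hxσ⟩ := Set.exists_of_ssubset (lt_of_le_of_ne h hne)
  have hgx : g x ≠ 0 := fun h0 => hxσ (by rw [hgσ]; exact ⟨hx, h0⟩)
  have h1 : Submodule.span ℝ σ ≤ LinearMap.ker g := by
    rw [Submodule.span_le]
    intro y hy
    rw [hgσ] at hy
    exact hy.2
  have h2 : Submodule.span ℝ σ < Submodule.span ℝ τ := by
    refine lt_of_le_of_ne (Submodule.span_mono h) ?_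
    intro he
    have : x ∈ Submodule.span ℝ σ := by rw [he]; exact Submodule.subset_span hx
    exact hgx (h1 this)
  have h3 := Submodule.finrank_lt_finrank_of_lt h2
  exact absurd hd h3.ne

lemma lin_mem {S : Set (Set (E → ℝ))} (hS : IsFan S) (hne : S.Nonempty) : lin S ∈ S := by
  obtain ⟨σ, hσ⟩ := hne
  obtain ⟨n, f, hf⟩ := hS.poly σ hσ
  have hf' : σ = Cf f := hf
  subst hf'
  rw [lin_Cf hS hσ, lineal']
  exact hS.face _ hσ _ (face_Ff f 0)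

lemma lin_sub {S : Set (Set (E → ℝ))} (hS : IsFan S) {σ : Set (E → ℝ)} (hσ : σ ∈ S) :
    lin S ⊆ σ := by
  rw [← lin_eq hS hσ]
  exact fun v hv => hv.1

end H215

theorem t_FAN : S_FAN := by
  intro E _ S hS hne
  refine ⟨fun x hx => H215.exists_car hS hx, fun κ hκ => H215.exists_car_of_mem hS hκ,
    fun σ hσ τ hτ h hd => H215.eq_of_dim hS hσ hτ h hd,
    ⟨H215.lin_mem hS hne, fun σ hσ => ⟨H215.lin_sub hS hσ, H215.lin_eq hS hσ⟩⟩, ?_⟩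
  intro n f hf y hy
  refine ⟨H215.car_Ff hS hf hy, ?_, ?_⟩
  · rw [dim, H215.span_Ff hy, Df]
  · rw [dim, H215.lin_Cf hS hf, Submodule.span_eq]

end Run7.h480.BF
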