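import Mathlib
import Pool.Agent.Run7.h215.BF.FAN

/-! Project BF, pieces RAY and EDGE. -/

set_option autoImplicit false

open Set Module

namespace Run7.h480.BF

namespace H215

variable {E : Type} [Fintype E]

/-- the part of a cone in `T` is given by the vanishing of some inequalities -/
lemma part {S : Set (Set (E → ℝ))} (hS : IsFan S) {T : Set (E → ℝ)} (hT : T ∈ S) {n : ℕ}
    {f : Fin n → ((E → ℝ) →ₗ[ℝ] ℝ)} (hf : Cf f ∈ S) : ∃ T' : Set (Fin n),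
    ∀ x ∈ Cf f, (x ∈ T ↔ ∀ i ∈ T', f i x = 0) := by
  obtain ⟨z, _, hz⟩ := exists_Ff (hS.inter _ hf _ hT)
  refine ⟨Zf f z, fun x hx => ?_⟩
  constructor
  · intro hxT i hi
    have : x ∈ Ff f z := by rw [← hz]; exact ⟨hx, hxT⟩
    exact this.2 hi
  · intro h
    have : x ∈ Cf f ∩ T := by rw [hz]; exact ⟨hx, fun i hi => h i hi⟩
    exact this.2

lemma dim_Ff {n : ℕ} {f : Fin n → ((E → ℝ) →ₗ[ℝ] ℝ)} {y : E → ℝ} (hy : y ∈ Cf f) :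
    dim (Ff f y) = Df f y := by
  rw [dim, span_Ff hy, Df]

lemma dim_lin {S : Set (Set (E → ℝ))} (hS : IsFan S) {n : ℕ} {f : Fin n → ((E → ℝ) →ₗ[ℝ] ℝ)}
    (hf : Cf f ∈ S) : dim (lin S) = finrank ℝ (Kf f univ) := by
  rw [dim, lin_Cf hS hf, Submodule.span_eq]

/-- faces of a cone of the fan contained in it -/
lemma sub_face {S : Set (Set (E → ℝ))} (hS : IsFan S) {n : ℕ} {f : Fin n → ((E → ℝ) →ₗ[ℝ] ℝ)}
    (hf : Cf f ∈ S) {ρ : Set (E → ℝ)} (hρ : ρ ∈ S) (h : ρ ⊆ Cf f) : ∃ x ∈ Cf f, ρ = Ff f x := by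
  obtain ⟨x, hx⟩ := exists_car_of_mem hS hρ
  have hxf : x ∈ Cf f := h hx.x_mem
  exact ⟨x, hxf, car_unique hx (car_Ff hS hf hxf)⟩

end H215

open H215

theorem t_RAY : S_POL1 → S_RAY := by
  intro hP E _ S hS T hT κ hκ hκT
  obtain ⟨n, f, hf⟩ := hS.poly κ hκ
  have hf' : κ = Cf f := hf
  subst hf'
  obtain ⟨T', hT'⟩ := part hS hT hκ
  obtain ⟨x, hx, hxT⟩ := Set.not_subset.mp hκT
  have h1 : ∃ i ∈ T', f i x ≠ 0 := by
    by_contra hcon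
    push Not at hcon
    exact hxT ((hT' x hx).mpr hcon)
  obtain ⟨y, hy, hyT, _, hd⟩ := hP E n f T' x hx h1
  have hc := car_Ff hS hκ hy
  refine ⟨Ff f y, hc.mem, fun z hz => hz.1, ?_, ?_⟩
  · rw [dim_Ff hy, hd, dim_lin hS hκ]
  · intro hsub
    obtain ⟨i, hi, hne⟩ := hyT
    exact hne ((hT' y hy).mp (hsub (self_mem_Ff hy)) i hi)

theorem t_EDGE : S_POL2 → S_EDGE := by
  intro hP E _ S hS T hT κ hκ ρ hρ ρ' hρ' hρκ hρκ' hd hd' hn hn'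
  obtain ⟨n, f, hf⟩ := hS.poly κ hκ
  have hf' : κ = Cf f := hf
  subst hf'
  obtain ⟨T', hT'⟩ := part hS hT hκ
  obtain ⟨x, hx, rfl⟩ := sub_face hS hκ hρ hρκ
  obtain ⟨y, hy, rfl⟩ := sub_face hS hκ hρ' hρκ'
  have key : ∀ a ∈ Cf f, (¬ Ff f a ⊆ T ↔ ∃ i ∈ T', f i a ≠ 0) := by
    intro a ha
    constructor
    · intro h
      by_contra hcon
      push Not at hcon
      refine h (fun z hz => (hT' z hz.1).mpr fun i hi => ?_)
      exact hz.2 (hcon i hi)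
    · rintro ⟨i, hi, hne⟩ hsub
      exact hne ((hT' a ha).mp (hsub (self_mem_Ff ha)) i hi)
  have h1 := hP E n f T' x y hx hy (by rw [← dim_Ff hx, hd, dim_lin hS hκ])
    (by rw [← dim_Ff hy, hd', dim_lin hS hκ]) ((key x hx).mp hn) ((key y hy).mp hn')
  refine Relation.ReflTransGen.lift (Ff f) ?_ _ _ h1
  rintro a b ⟨⟨ha, hda, hna⟩, ⟨hb, hdb, hnb⟩, u, hu, hdu, hua, hub⟩
  refine ⟨⟨(car_Ff hS hκ ha).mem, ?_, (key a ha).mpr hna⟩,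
    ⟨(car_Ff hS hκ hb).mem, ?_, (key b hb).mpr hnb⟩, Ff f u, (car_Ff hS hκ hu).mem, ?_, ?_, ?_⟩
  · rw [dim_Ff ha, hda, dim_lin hS hκ]
  · rw [dim_Ff hb, hdb, dim_lin hS hκ]
  · rw [dim_Ff hu, dim_lin hS hκ]
    exact hdu
  · exact Ff_mono ⟨ha, hua⟩
  · exact Ff_mono ⟨hb, hub⟩

end Run7.h480.BF
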