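import Mathlib
import Pool.Agent.Run7.h215.BF.RAY

/-! Project BF, pieces STF and STC: star fans. -/

set_option autoImplicit false

open Set Module

namespace Run7.h480.BF

namespace H215

variable {E : Type} [Fintype E]

lemma tan_Cf {n : ℕ} {f : Fin n → ((E → ℝ) →ₗ[ℝ] ℝ)} {v : E → ℝ} (hv : v ∈ Cf f) :
    tan (Cf f) v = {x | ∀ i ∈ Zf f v, 0 ≤ f i x} := by
  ext x
  constructor
  · rintro ⟨ε, he, h⟩ i hi
    have h1 := h i
    have hi' : f i v = 0 := hi
    rw [map_add, hi', zero_add, map_smul, smul_eq_mul] at h1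
    exact nonneg_of_mul_nonneg_right h1 he
  · intro hx
    obtain ⟨ε, he, h⟩ := small (fun i => f i v) (fun i => f i x)
    refine ⟨ε, he, fun i => ?_⟩
    rw [map_add, map_smul, smul_eq_mul]
    rcases (hv i).eq_or_lt with h0 | h0
    · have h1 := hx i h0.symm
      rw [← h0]
      positivity
    · exact (h i h0 ε he.le le_rfl).le

lemma cone_add {σ : Set (E → ℝ)} (h : IsPoly σ) {x y : E → ℝ} (hx : x ∈ σ) (hy : y ∈ σ) :
    x + y ∈ σ := by
  obtain ⟨n, f, rfl⟩ := h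
  intro i
  rw [map_add]
  exact add_nonneg (hx i) (hy i)

lemma cone_smul {σ : Set (E → ℝ)} (h : IsPoly σ) {x : E → ℝ} (hx : x ∈ σ) {t : ℝ} (ht : 0 ≤ t) :
    t • x ∈ σ := by
  obtain ⟨n, f, rfl⟩ := h
  intro i
  rw [map_smul, smul_eq_mul]
  exact mul_nonneg ht (hx i)

lemma cone_zero {σ : Set (E → ℝ)} (h : IsPoly σ) : (0 : E → ℝ) ∈ σ := by
  obtain ⟨n, f, rfl⟩ := h
  intro i
  simp

lemma cone_seg {σ : Set (E → ℝ)} (h : IsPoly σ) {v x : E → ℝ} (hv : v ∈ σ) {ε t : ℝ}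
    (hx : v + ε • x ∈ σ) (ht : 0 ≤ t) (hte : t ≤ ε) : v + t • x ∈ σ := by
  obtain ⟨n, f, rfl⟩ := h
  intro i
  have h1 : 0 ≤ f i v := hv i
  have h2 : 0 ≤ f i (v + ε • x) := hx i
  rw [map_add, map_smul, smul_eq_mul] at h2 ⊢
  rcases le_total 0 (f i x) with h3 | h3
  · positivity
  · nlinarith

lemma sub_tan {σ : Set (E → ℝ)} (h : IsPoly σ) {v : E → ℝ} (hv : v ∈ σ) : σ ⊆ tan σ v := by
  intro x hx
  refine ⟨1, one_pos, ?_⟩
  rw [one_smul]
  exact cone_add h hv hx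

lemma tan_mono {σ τ : Set (E → ℝ)} (h : σ ⊆ τ) (v : E → ℝ) : tan σ v ⊆ tan τ v := by
  rintro x ⟨ε, he, hx⟩
  exact ⟨ε, he, h hx⟩

lemma tan_span {σ : Set (E → ℝ)} (h : IsPoly σ) {v : E → ℝ} (hv : v ∈ σ) :
    Submodule.span ℝ (tan σ v) = Submodule.span ℝ σ := by
  apply le_antisymm
  · rw [Submodule.span_le]
    rintro x ⟨ε, he, hx⟩
    have h2 : x = ε⁻¹ • ((v + ε • x) - v) := by
      rw [add_sub_cancel_left, smul_smul, inv_mul_cancel₀ he.ne', one_smul]
    rw [h2]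
    exact Submodule.smul_mem _ _ (Submodule.sub_mem _ (Submodule.subset_span hx)
      (Submodule.subset_span hv))
  · exact Submodule.span_mono (sub_tan h hv)

lemma poly_tan {σ : Set (E → ℝ)} (h : IsPoly σ) {v : E → ℝ} (hv : v ∈ σ) :
    IsPoly (tan σ v) := by
  classical
  obtain ⟨n, f, hf⟩ := h
  have hf' : σ = Cf f := hf
  subst hf'
  refine ⟨n, fun i => if i ∈ Zf f v then f i else 0, ?_⟩
  rw [tan_Cf hv]
  ext x
  simp only [mem_setOf_eq]
  constructor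
  · intro h i
    by_cases hi : i ∈ Zf f v
    · rw [if_pos hi]; exact h i hi
    · rw [if_neg hi]; simp
  · intro h i hi
    have := h i
    rw [if_pos hi] at this
    exact this

lemma star_fan {S : Set (Set (E → ℝ))} (hS : IsFan S) (v : E → ℝ) : IsFan (star S v) := by
  refine ⟨?_, ?_, ?_, ?_⟩
  · refine (hS.fin.image (fun σ => tan σ v)).subset ?_
    rintro τ ⟨σ, hσ, _, rfl⟩
    exact ⟨σ, hσ, rfl⟩
  · rintro τ ⟨σ, hσ, hv, rfl⟩
    exact poly_tan (hS.poly σ hσ) hv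
  · rintro τ ⟨σ, hσ, hv, rfl⟩ φ ⟨g, hg, rfl⟩
    have hp := hS.poly σ hσ
    have hgv : g v = 0 := by
      have h1 := hg v (sub_tan hp hv hv)
      have h2 : -v ∈ tan σ v := ⟨1, one_pos, by
        rw [one_smul, add_neg_cancel]
        exact cone_zero hp⟩
      have h3 := hg _ h2
      rw [map_neg] at h3
      linarith
    refine ⟨{x | x ∈ σ ∧ g x = 0}, hS.face σ hσ _ ⟨g, fun x hx => hg x (sub_tan hp hv hx), rfl⟩,
      ⟨hv, hgv⟩, ?_⟩
    ext x
    constructor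
    · rintro ⟨⟨ε, he, hx⟩, hgx⟩
      refine ⟨ε, he, hx, ?_⟩
      rw [map_add, map_smul, hgv, hgx, smul_zero, add_zero]
    · rintro ⟨ε, he, hx, hgx⟩
      refine ⟨⟨ε, he, hx⟩, ?_⟩
      rw [map_add, map_smul, hgv, zero_add, smul_eq_mul] at hgx
      rcases mul_eq_zero.mp hgx with h | h
      · exact absurd h he.ne'
      · exact h
  · rintro _ ⟨σ, hσ, hv, rfl⟩ _ ⟨τ, hτ, hv', rfl⟩
    obtain ⟨g, hg, h⟩ := hS.inter σ hσ τ hτ
    have hgv : g v = 0 := by
      have : v ∈ {x | x ∈ σ ∧ g x = 0} := by rw [← h]; exact ⟨hv, hv'⟩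
      exact this.2
    refine ⟨g, ?_, ?_⟩
    · rintro x ⟨ε, he, hx⟩
      have h1 := hg _ hx
      rw [map_add, map_smul, hgv, zero_add, smul_eq_mul] at h1
      exact nonneg_of_mul_nonneg_right h1 he
    · ext x
      constructor
      · rintro ⟨⟨ε, he, hx⟩, ⟨ε', he', hx'⟩⟩
        refine ⟨⟨ε, he, hx⟩, ?_⟩
        have h1 := cone_seg (hS.poly σ hσ) hv hx (t := min ε ε') (lt_min he he').le (min_le_left _ _)
        have h2 := cone_seg (hS.poly τ hτ) hv' hx' (t := min ε ε') (lt_min he he').le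
          (min_le_right _ _)
        have h3 : v + min ε ε' • x ∈ {x | x ∈ σ ∧ g x = 0} := by rw [← h]; exact ⟨h1, h2⟩
        have h4 := h3.2
        rw [map_add, map_smul, hgv, zero_add, smul_eq_mul] at h4
        rcases mul_eq_zero.mp h4 with h | h
        · exact absurd h (lt_min he he').ne'
        · exact h
      · rintro ⟨⟨ε, he, hx⟩, hgx⟩
        refine ⟨⟨ε, he, hx⟩, ε, he, ?_⟩
        have h3 : v + ε • x ∈ σ ∩ τ := by
          rw [h]
          refine ⟨hx, ?_⟩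
          rw [map_add, map_smul, hgv, hgx, smul_zero, add_zero]
        exact h3.2

lemma tan_sub_iff {S : Set (Set (E → ℝ))} (hS : IsFan S) {v : E → ℝ} {σ τ : Set (E → ℝ)}
    (hσ : σ ∈ S) (hτ : τ ∈ S) (hv : v ∈ σ) : tan σ v ⊆ tan τ v ↔ σ ⊆ τ := by
  constructor
  · intro h
    obtain ⟨x, hx⟩ := exists_car_of_mem hS hσ
    have hp := hS.poly σ hσ
    obtain ⟨ε, he, h1⟩ := h (sub_tan hp hv hx.x_mem)
    have h2 : v + ε • x ∈ σ := cone_add hp hv (cone_smul hp hx.x_mem he.le)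
    obtain ⟨g, hg, h3⟩ := hS.inter σ hσ τ hτ
    have h4 : v + ε • x ∈ {x | x ∈ σ ∧ g x = 0} := by rw [← h3]; exact ⟨h2, h1⟩
    have h5 := h4.2
    rw [map_add, map_smul, smul_eq_mul] at h5
    have h6 := hg v hv
    have h7 := hg x hx.x_mem
    have h8 : g x = 0 := by
      have : ε * g x ≤ 0 := by linarith
      have h9 : 0 ≤ ε * g x := mul_nonneg he.le h7
      rcases mul_eq_zero.mp (le_antisymm this h9) with h | h
      · exact absurd h he.ne'
      · exact h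
    have h9 : x ∈ σ ∩ τ := by rw [h3]; exact ⟨hx.x_mem, h8⟩
    exact hx.min τ hτ h9.2
  · intro h
    exact tan_mono h v

lemma tan_car {S : Set (Set (E → ℝ))} (hS : IsFan S) {v : E → ℝ} {κ : Set (E → ℝ)}
    (h : Car S v κ) : tan κ v = (Submodule.span ℝ κ : Set (E → ℝ)) := by
  obtain ⟨n, f, hf⟩ := hS.poly κ h.mem
  have hf' : κ = Cf f := hf
  subst hf'
  have hv := h.x_mem
  have hc := car_unique h (car_Ff hS h.mem hv)
  have hsp : Submodule.span ℝ (Cf f) = Kf f (Zf f v) := by rw [hc]; exact span_Ff hv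
  rw [hsp]
  ext x
  constructor
  · rintro ⟨ε, he, hx⟩
    rw [hc] at hx
    refine mem_Kf.mpr fun i hi => ?_
    have h1 : f i (v + ε • x) = 0 := hx.2 hi
    have h2 : f i v = 0 := hi
    rw [map_add, map_smul, h2, zero_add, smul_eq_mul] at h1
    rcases mul_eq_zero.mp h1 with h | h
    · exact absurd h he.ne'
    · exact h
  · intro hx
    obtain ⟨ε, he, h1⟩ := move hv hx
    exact ⟨ε, he, (h1 ε (by rw [abs_of_pos he])).1.1⟩

end H215

open H215

theorem t_STF : S_STF := by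
  intro E _ S hS v hv
  refine ⟨star_fan hS v, fun σ hσ hvσ => ?_, fun σ hσ τ hτ hvσ _ => tan_sub_iff hS hσ hτ hvσ, ?_⟩
  · rw [dim, dim, tan_span (hS.poly σ hσ) hvσ]
  · intro κ hκ
    have h1 : tan κ v ∈ star S v := ⟨κ, hκ.mem, hκ.x_mem, rfl⟩
    rw [← lin_eq (star_fan hS v) h1, tan_car hS hκ, dim, dim]
    have h2 : {x | x ∈ (Submodule.span ℝ κ : Set (E → ℝ)) ∧
        -x ∈ (Submodule.span ℝ κ : Set (E → ℝ))} = (Submodule.span ℝ κ : Set (E → ℝ)) := by
      ext x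
      simp
    rw [h2, Submodule.span_eq]

theorem t_STC : S_STC := by
  have key : ∀ (E : Type) [Fintype E] (S : Set (Set (E → ℝ))), IsFan S →
    ∀ v w κ, Car S v κ → Car S w κ → star S v ⊆ star S w := by
    intro E _ S hS v w κ hv hw
    rintro τ ⟨σ, hσ, hvσ, rfl⟩
    have hwσ : w ∈ σ := hv.min σ hσ hvσ hw.x_mem
    refine ⟨σ, hσ, hwσ, ?_⟩
    obtain ⟨n, f, hf⟩ := hS.poly σ hσ
    have hf' : σ = Cf f := hf
    subst hf'
    have e1 := car_unique hv (car_Ff hS hσ hvσ)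
    have e2 := car_unique hw (car_Ff hS hσ hwσ)
    have h1 : v ∈ Ff f w := by rw [← e2]; exact hv.x_mem
    have h2 : w ∈ Ff f v := by rw [← e1]; exact hw.x_mem
    rw [tan_Cf hvσ, tan_Cf hwσ, subset_antisymm h2.2 h1.2]
  intro E _ S hS v w κ hv hw
  exact subset_antisymm (key E S hS v w κ hv hw) (key E S hS w v κ hw hv)

end Run7.h480.BF
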